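import Pool.Agent.TH716.C3.Stmts

set_option autoImplicit false

namespace Pool.Agent.TH25.J525

open Pool.Agent.TH716.C3 Pool.Agent.Helper281.Sc

/-! ### the families are closed under nonempty subsets and finite -/

theorem th_down (p : ℕ) {s t : Finset ℕ} (hs : s ∈ Th p) (hts : t ⊆ s) (ht : t.Nonempty) :
    t ∈ Th p := by
  obtain ⟨_, h | ⟨j, hj, h⟩⟩ := hs
  · subst h
    exact ⟨ht, Or.inl ((Finset.Nonempty.subset_singleton_iff ht).1 hts)⟩
  · refine ⟨ht, Or.inr ⟨j, hj, ?_⟩⟩
    rcases h with h | h | h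
    · exact Or.inl (hts.trans h)
    · exact Or.inr (Or.inl (hts.trans h))
    · exact Or.inr (Or.inr (hts.trans h))

theorem gad_down {U : Type} [DecidableEq U] (l : ℕ) (p y : ℕ → U) (z : U) {s t : Finset U}
    (hs : s ∈ Gad l p y z) (hts : t ⊆ s) (ht : t.Nonempty) : t ∈ Gad l p y z := by
  obtain ⟨_, i, hi, h⟩ := hs
  refine ⟨ht, i, hi, ?_⟩
  rcases h with h | h | h
  · exact Or.inl (hts.trans h)
  · exact Or.inr (Or.inl (hts.trans h))
  · exact Or.inr (Or.inr (hts.trans h))

theorem kp_down (N : ℕ) (g : ℕ → ℕ) {s t : Finset ℕ} (hs : s ∈ Kp N g) (hts : t ⊆ s)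
    (ht : t.Nonempty) : t ∈ Kp N g := by
  rcases hs with hs | ⟨h, hh, hs⟩
  · exact Or.inl (th_down N hs hts ht)
  · exact Or.inr ⟨h, hh, gad_down _ _ _ _ hs hts ht⟩

theorem pr_down {K T : Set (Finset ℕ)}
    (hK : ∀ s t : Finset ℕ, s ∈ K → t ⊆ s → t.Nonempty → t ∈ K)
    (hT : ∀ s t : Finset ℕ, s ∈ T → t ⊆ s → t.Nonempty → t ∈ T)
    {s t : Finset (ℕ × ℕ)} (hs : s ∈ Pr K T) (hts : t ⊆ s) (ht : t.Nonempty) : t ∈ Pr K T :=
  ⟨hK _ _ hs.1 (Finset.image_subset_image hts) (ht.image _),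
    hT _ _ hs.2.1 (Finset.image_subset_image hts) (ht.image _),
    fun x hx y hy => hs.2.2 x (hts hx) y (hts hy)⟩

theorem lc_down (N : ℕ) (g : ℕ → ℕ) (rs : List (List (ℕ × Bool)))
    {s t : Finset ((ℕ × ℕ) ⊕ (ℕ × ℕ))} (hs : s ∈ Lc (Kp N g) rs) (hts : t ⊆ s)
    (ht : t.Nonempty) : t ∈ Lc (Kp N g) rs := by
  rcases hs with ⟨u, hu, rfl⟩ | ⟨j, hj, hs⟩
  · left
    obtain ⟨u', hu', rfl⟩ := Finset.subset_image_iff.1 hts
    refine ⟨u', pr_down (fun s t => kp_down N g) (fun s t => th_down _) hu ?_ ?_, rfl⟩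
    · exact_mod_cast hu'
    · exact Finset.image_nonempty.1 ht
  · exact Or.inr ⟨j, hj, gad_down _ _ _ _ hs hts ht⟩

theorem gad_finite {U : Type} [DecidableEq U] (l : ℕ) (p y : ℕ → U) (z : U) :
    (Gad l p y z).Finite := by
  refine Set.Finite.subset (s := ⋃ i ∈ Finset.range (l + 1),
    ((({p i, p (nx l i), y i} : Finset U).powerset : Set (Finset U)) ∪
    ((({p (nx l i), y i, y (nx l i)} : Finset U).powerset : Set (Finset U)) ∪
    (({y i, y (nx l i), z} : Finset U).powerset : Set (Finset U))))) ?_ ?_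
  · refine Set.Finite.biUnion (Finset.finite_toSet _) fun i _ => ?_
    exact (Finset.finite_toSet _).union ((Finset.finite_toSet _).union (Finset.finite_toSet _))
  · rintro s ⟨_, i, hi, h⟩
    refine Set.mem_iUnion₂.2 ⟨i, by simpa [Nat.lt_succ_iff] using hi, ?_⟩
    rcases h with h | h | h
    · exact Or.inl (Finset.mem_coe.2 (Finset.mem_powerset.2 h))
    · exact Or.inr (Or.inl (Finset.mem_coe.2 (Finset.mem_powerset.2 h)))
    · exact Or.inr (Or.inr (Finset.mem_coe.2 (Finset.mem_powerset.2 h)))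

theorem th_finite (p : ℕ) : (Th p).Finite := by
  refine Set.Finite.subset (s := {{0}} ∪ ⋃ j ∈ Finset.range p,
    ((({0, 2 * j + 1} : Finset ℕ).powerset : Set (Finset ℕ)) ∪
    ((({2 * j + 1, 2 * j + 2} : Finset ℕ).powerset : Set (Finset ℕ)) ∪
    (({0, 2 * j + 2} : Finset ℕ).powerset : Set (Finset ℕ))))) ?_ ?_
  · refine (Set.finite_singleton _).union (Set.Finite.biUnion (Finset.finite_toSet _) fun i _ => ?_)
    exact (Finset.finite_toSet _).union ((Finset.finite_toSet _).union (Finset.finite_toSet _))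
  · rintro s ⟨_, h | ⟨i, hi, h⟩⟩
    · exact Or.inl h
    · refine Or.inr (Set.mem_iUnion₂.2 ⟨i, by simpa using hi, ?_⟩)
      rcases h with h | h | h
      · exact Or.inl (Finset.mem_coe.2 (Finset.mem_powerset.2 h))
      · exact Or.inr (Or.inl (Finset.mem_coe.2 (Finset.mem_powerset.2 h)))
      · exact Or.inr (Or.inr (Finset.mem_coe.2 (Finset.mem_powerset.2 h)))

theorem kp_finite (N : ℕ) (g : ℕ → ℕ) : (Kp N g).Finite := by
  refine (th_finite N).union ?_
  refine Set.Finite.subset (s := ⋃ h ∈ Finset.range N,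
    Gad 14 (wv (rl g h)) (fun i => 2 * N + 1 + 16 * h + i) (2 * N + 1 + 16 * h + 15)) ?_ ?_
  · exact Set.Finite.biUnion (Finset.finite_toSet _) fun i _ => gad_finite _ _ _ _
  · rintro s ⟨h, hh, hs⟩
    exact Set.mem_iUnion₂.2 ⟨h, by simpa using hh, hs⟩

theorem th_card (p : ℕ) {s : Finset ℕ} (hs : s ∈ Th p) : s.card ≤ 3 := by
  obtain ⟨_, h | ⟨j, hj, h⟩⟩ := hs
  · subst h; simp
  · rcases h with h | h | h <;>
      exact (Finset.card_le_card h).trans ((Finset.card_le_two).trans (by norm_num))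

theorem gad_card {U : Type} [DecidableEq U] (l : ℕ) (p y : ℕ → U) (z : U) {s : Finset U}
    (hs : s ∈ Gad l p y z) : s.card ≤ 3 := by
  obtain ⟨_, i, hi, h⟩ := hs
  rcases h with h | h | h <;> exact (Finset.card_le_card h).trans Finset.card_le_three

theorem kp_card (N : ℕ) (g : ℕ → ℕ) {s : Finset ℕ} (hs : s ∈ Kp N g) : s.card ≤ 3 := by
  rcases hs with hs | ⟨h, hh, hs⟩
  · exact th_card N hs
  · exact gad_card _ _ _ _ hs

/-! ### chains over an edge -/

/-- Chains of `K × {false < true}`. -/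
def P2 (K : Set (Finset ℕ)) : Set (Finset (ℕ × Bool)) :=
  {s | s.image Prod.fst ∈ K ∧ ∀ x ∈ s, ∀ y ∈ s, x ≤ y ∨ y ≤ x}

theorem p2_finite {K : Set (Finset ℕ)} (hK : K.Finite) : (P2 K).Finite := by
  classical
  let V : Finset ℕ := hK.toFinset.biUnion id
  refine Set.Finite.subset (s := ((V ×ˢ (Finset.univ : Finset Bool)).powerset :
    Set (Finset (ℕ × Bool)))) (Finset.finite_toSet _) ?_
  intro s hs
  simp only [Finset.coe_powerset, Set.mem_preimage, Set.mem_powerset_iff, Finset.coe_subset]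
  intro x hx
  rw [Finset.mem_product]
  refine ⟨?_, Finset.mem_univ _⟩
  refine Finset.mem_biUnion.2 ⟨s.image Prod.fst, by simpa using hs.1, ?_⟩
  exact Finset.mem_image_of_mem _ hx

theorem p2_card {K : Set (Finset ℕ)} (hK : ∀ s ∈ K, s.card ≤ 3) {s : Finset (ℕ × Bool)}
    (hs : s ∈ P2 K) : s.card ≤ 4 := by
  classical
  set A := (s.filter fun x => x.2 = false).image Prod.fst with hA
  set B := (s.filter fun x => x.2 = true).image Prod.fst with hB
  have hAc : A.card = (s.filter fun x => x.2 = false).card := by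
    refine Finset.card_image_of_injOn ?_
    intro x hx y hy hxy
    simp only [Finset.coe_filter, Set.mem_ofPred_eq] at hx hy
    exact Prod.ext hxy (hx.2.trans hy.2.symm)
  have hBc : B.card = (s.filter fun x => x.2 = true).card := by
    refine Finset.card_image_of_injOn ?_
    intro x hx y hy hxy
    simp only [Finset.coe_filter, Set.mem_ofPred_eq] at hx hy
    exact Prod.ext hxy (hx.2.trans hy.2.symm)
  have hsc : s.card = A.card + B.card := by
    rw [hAc, hBc, ← Finset.card_filter_add_card_filter_not (s := s) (fun x => x.2 = false)]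
    congr 1
    refine congrArg Finset.card (Finset.filter_congr fun x _ => ?_)
    simp
  have hU : (A ∪ B).card ≤ 3 := by
    refine (Finset.card_le_card ?_).trans (hK _ hs.1)
    refine Finset.union_subset ?_ ?_
    · exact Finset.image_subset_image (Finset.filter_subset _ _)
    · exact Finset.image_subset_image (Finset.filter_subset _ _)
  have hI : (A ∩ B).card ≤ 1 := by
    rw [Finset.card_le_one]
    have key : ∀ v ∈ A, ∀ w ∈ B, v ≤ w := by
      intro v hv w hw
      obtain ⟨x, hx, rfl⟩ := Finset.mem_image.1 hv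
      obtain ⟨y, hy, rfl⟩ := Finset.mem_image.1 hw
      rw [Finset.mem_filter] at hx hy
      rcases hs.2 x hx.1 y hy.1 with h | h
      · exact h.1
      · have h2 := h.2
        rw [hx.2, hy.2] at h2
        exact absurd h2 (by decide)
    intro v hv w hw
    rw [Finset.mem_inter] at hv hw
    exact le_antisymm (key v hv.1 w hw.2) (key w hw.1 v hv.2)
  have := Finset.card_union_add_card_inter A B
  omega

/-- The level map. -/
def lev (a b : ℕ) (x : ℕ × Bool) : ℕ × ℕ := (x.1, cond x.2 b a)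

theorem lev_mem {K : Set (Finset ℕ)} {p a b : ℕ} (hab : a < b)
    (hT : ({a, b} : Finset ℕ) ∈ Th p) {s : Finset (ℕ × Bool)} (hs : s ∈ P2 K)
    (hne : s.Nonempty) : s.image (lev a b) ∈ Pr K (Th p) := by
  refine ⟨?_, ?_, ?_⟩
  · rw [Finset.image_image]
    exact hs.1
  · refine th_down p hT ?_ ((hne.image _).image _)
    intro w hw
    obtain ⟨y, hy, rfl⟩ := Finset.mem_image.1 hw
    obtain ⟨x, hx, rfl⟩ := Finset.mem_image.1 hy
    rcases x with ⟨v, β⟩
    cases β <;> simp [lev]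
  · have mono : ∀ x y : ℕ × Bool, x ≤ y → lev a b x ≤ lev a b y := by
      rintro ⟨v, β⟩ ⟨w, γ⟩ ⟨h1, h2⟩
      refine ⟨h1, ?_⟩
      cases β <;> cases γ
      · exact le_rfl
      · exact hab.le
      · change true ≤ false at h2
        exact absurd h2 (by decide)
      · exact le_rfl
    intro x hx y hy
    obtain ⟨x', hx', rfl⟩ := Finset.mem_image.1 hx
    obtain ⟨y', hy', rfl⟩ := Finset.mem_image.1 hy
    rcases hs.2 x' hx' y' hy' with h | h
    · exact Or.inl (mono _ _ h)
    · exact Or.inr (mono _ _ h)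

theorem lev_surj {K : Set (Finset ℕ)} {T : Set (Finset ℕ)} {a b : ℕ} (hab : a < b)
    {t : Finset (ℕ × ℕ)} (ht : t ∈ Pr K T) (hl : t.image Prod.snd ⊆ {a, b}) :
    ∃ s ∈ P2 K, t = s.image (lev a b) := by
  have hl' : ∀ x ∈ t, x.2 = a ∨ x.2 = b := by
    intro x hx
    have := hl (Finset.mem_image_of_mem Prod.snd hx)
    simpa using this
  refine ⟨t.image (fun x => (x.1, decide (x.2 = b))), ⟨?_, ?_⟩, ?_⟩
  · rw [Finset.image_image]
    exact ht.1
  · have mono : ∀ x ∈ t, ∀ y ∈ t, x ≤ y →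
        ((x.1, decide (x.2 = b)) : ℕ × Bool) ≤ (y.1, decide (y.2 = b)) := by
      intro x hx y hy h
      refine ⟨h.1, ?_⟩
      have h2 := h.2
      rcases hl' x hx with e | e <;> rcases hl' y hy with f | f
      · simp [e, f]
      · simp [f]
      · omega
      · simp [e, f]
    intro x hx y hy
    obtain ⟨x', hx', rfl⟩ := Finset.mem_image.1 hx
    obtain ⟨y', hy', rfl⟩ := Finset.mem_image.1 hy
    rcases ht.2.2 x' hx' y' hy' with h | h
    · exact Or.inl (mono _ hx' _ hy' h)
    · exact Or.inr (mono _ hy' _ hx' h)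
  · rw [Finset.image_image]
    ext x
    rw [Finset.mem_image]
    have key : ∀ y ∈ t, (lev a b ∘ fun x : ℕ × ℕ => (x.1, decide (x.2 = b))) y = y := by
      intro y hy
      rcases hl' y hy with e | e
      · have : ¬ (y.2 = b) := by omega
        simp only [Function.comp_apply, lev, this, decide_false, cond_false]
        rw [← e]
      · simp only [Function.comp_apply, lev, e, decide_true, cond_true]
        rw [← e]
    constructor
    · intro hx
      exact ⟨x, hx, key x hx⟩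
    · rintro ⟨y, hy, rfl⟩
      rw [key y hy]; exact hy

/-! ### the lists -/

/-- code of a left vertex -/
def cL (x : ℕ × ℕ) : ℕ := 2 * Nat.pair x.1 x.2
/-- code of a right vertex -/
def cR (x : ℕ × ℕ) : ℕ := 2 * Nat.pair x.1 x.2 + 1

/-- the lists over an edge -/
def lvl (Q : List (List (ℕ × Bool))) (a b : ℕ) : List (List ℕ) :=
  Q.map fun q => q.map fun x => cL (lev a b x)

/-- the lists over a circle -/
def fA (Q : List (List (ℕ × Bool))) (j : ℕ) : List (List ℕ) :=
  lvl Q 0 (2 * j + 1) ++ (lvl Q (2 * j + 1) (2 * j + 2) ++ lvl Q 0 (2 * j + 2))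

/-- three triangles of a gadget -/
def tri (j : ℕ) (r : List (ℕ × Bool)) (i : ℕ) : List (List ℕ) :=
  [[cL (wk j r i), cL (wk j r (nx (2 + 3 * r.length) i)), cR (j, i)],
    [cL (wk j r (nx (2 + 3 * r.length) i)), cR (j, i), cR (j, nx (2 + 3 * r.length) i)],
    [cR (j, i), cR (j, nx (2 + 3 * r.length) i), cR (j, 3 + 3 * r.length)]]

/-- the lists of a gadget -/
def fB (j : ℕ) (r : List (ℕ × Bool)) : List (List ℕ) :=
  (List.range (3 + 3 * r.length)).flatMap (tri j r)

/-- all facets -/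
def FF (C0 : List (List ℕ)) (Q : List (List (ℕ × Bool))) (rs : List (List (ℕ × Bool))) :
    List (List ℕ) :=
  C0 ++ (List.range rs.length).flatMap fun j => fA Q j ++ fB j (rs.getD j [])

/-! ### computability -/

theorem p_cL : Primrec cL :=
  Primrec.nat_mul.comp (Primrec.const 2) (Primrec₂.natPair.comp Primrec.fst Primrec.snd)

theorem p_cR : Primrec cR := Primrec.succ.comp p_cL

theorem p_nx : Primrec (fun x : ℕ × ℕ => nx x.1 x.2) := by
  unfold nx
  refine Primrec.ite (Primrec.nat_lt.comp Primrec.snd Primrec.fst) (Primrec.succ.comp Primrec.snd)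
    (Primrec.const 0)

theorem p_wv : Primrec (fun x : List (ℕ × Bool) × ℕ => wv x.1 x.2) := by
  have h : Primrec (fun x : List (ℕ × Bool) × ℕ => Option.casesOn (motive := fun _ => ℕ)
      (x.1[x.2 / 3]?) 0 (fun y => if x.2 % 3 = 0 then 0 else
        if decide (x.2 % 3 = 1) = y.2 then 2 * y.1 + 1 else 2 * y.1 + 2)) := by
    refine Primrec.option_casesOn
      (Primrec.list_getElem?.comp Primrec.fst (Primrec.nat_div.comp Primrec.snd (Primrec.const 3)))
      (Primrec.const 0) ?_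
    show Primrec (fun z : (List (ℕ × Bool) × ℕ) × (ℕ × Bool) => if z.1.2 % 3 = 0 then 0 else
        if decide (z.1.2 % 3 = 1) = z.2.2 then 2 * z.2.1 + 1 else 2 * z.2.1 + 2)
    have hm : Primrec (fun z : (List (ℕ × Bool) × ℕ) × (ℕ × Bool) => z.1.2 % 3) :=
      Primrec.nat_mod.comp (Primrec.snd.comp Primrec.fst) (Primrec.const 3)
    have hx : Primrec (fun z : (List (ℕ × Bool) × ℕ) × (ℕ × Bool) => z.2.1) :=
      Primrec.fst.comp Primrec.snd
    refine Primrec.ite (Primrec.eq.comp hm (Primrec.const 0)) (Primrec.const 0) ?_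
    refine Primrec.ite (Primrec.eq.comp (β := Bool) ?_ (Primrec.snd.comp Primrec.snd))
      (Primrec.nat_double_succ.comp hx) (Primrec.succ.comp (Primrec.nat_double_succ.comp hx))
    exact primrecPred_iff_primrec_decide.1 (Primrec.eq.comp hm (Primrec.const 1))
  refine h.of_eq fun x => ?_
  unfold wv
  cases x.1[x.2 / 3]? <;> rfl

theorem p_wk : Primrec (fun x : (ℕ × List (ℕ × Bool)) × ℕ => wk x.1.1 x.1.2 x.2) := by
  unfold wk
  have hj : Primrec (fun x : (ℕ × List (ℕ × Bool)) × ℕ => x.1.1) := Primrec.fst.comp Primrec.fst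
  refine Primrec.ite (Primrec.eq.comp Primrec.snd (Primrec.const 0)) (Primrec.const (0, 0)) ?_
  refine Primrec.ite (Primrec.eq.comp Primrec.snd (Primrec.const 1))
    (Primrec.pair (Primrec.const 0) (Primrec.nat_double_succ.comp hj)) ?_
  refine Primrec.ite (Primrec.eq.comp Primrec.snd (Primrec.const 2))
    (Primrec.pair (Primrec.const 0) (Primrec.succ.comp (Primrec.nat_double_succ.comp hj))) ?_
  exact Primrec.pair (p_wv.comp (Primrec.pair (Primrec.snd.comp Primrec.fst)
    (Primrec.nat_sub.comp Primrec.snd (Primrec.const 3)))) (Primrec.const 0)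

theorem p_lvl (Q : List (List (ℕ × Bool))) : Primrec (fun x : ℕ × ℕ => lvl Q x.1 x.2) := by
  unfold lvl
  refine Primrec.list_map (Primrec.const Q) ?_
  show Primrec (fun z : (ℕ × ℕ) × List (ℕ × Bool) => z.2.map fun x => cL (lev z.1.1 z.1.2 x))
  refine Primrec.list_map Primrec.snd ?_
  show Primrec (fun z : ((ℕ × ℕ) × List (ℕ × Bool)) × (ℕ × Bool) =>
    cL (lev z.1.1.1 z.1.1.2 z.2))
  refine p_cL.comp (Primrec.pair (Primrec.fst.comp Primrec.snd) ?_)
  exact Primrec.cond (Primrec.snd.comp Primrec.snd)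
    (Primrec.snd.comp (Primrec.fst.comp Primrec.fst))
    (Primrec.fst.comp (Primrec.fst.comp Primrec.fst))

theorem p_fA (Q : List (List (ℕ × Bool))) : Primrec (fA Q) := by
  unfold fA
  have h1 : Primrec (fun j : ℕ => 2 * j + 1) := Primrec.nat_double_succ
  have h2 : Primrec (fun j : ℕ => 2 * j + 2) := Primrec.succ.comp Primrec.nat_double_succ
  refine Primrec.list_append.comp ((p_lvl Q).comp (Primrec.pair (Primrec.const 0) h1)) ?_
  exact Primrec.list_append.comp ((p_lvl Q).comp (Primrec.pair h1 h2))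
    ((p_lvl Q).comp (Primrec.pair (Primrec.const 0) h2))

theorem p_l3 {α σ : Type} [Primcodable α] [Primcodable σ] {f g h : α → σ} (hf : Primrec f)
    (hg : Primrec g) (hh : Primrec h) : Primrec (fun x => [f x, g x, h x]) :=
  Primrec.list_cons.comp hf (Primrec.list_cons.comp hg
    (Primrec.list_cons.comp hh (Primrec.const [])))

theorem p_tri : Primrec (fun x : (ℕ × List (ℕ × Bool)) × ℕ => tri x.1.1 x.1.2 x.2) := by
  unfold tri
  have hj : Primrec (fun x : (ℕ × List (ℕ × Bool)) × ℕ => x.1.1) := Primrec.fst.comp Primrec.fst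
  have hlen : Primrec (fun x : (ℕ × List (ℕ × Bool)) × ℕ => 3 * x.1.2.length) :=
    Primrec.nat_mul.comp (Primrec.const 3)
      (Primrec.list_length.comp (Primrec.snd.comp Primrec.fst))
  have hl2 : Primrec (fun x : (ℕ × List (ℕ × Bool)) × ℕ => 2 + 3 * x.1.2.length) :=
    Primrec.nat_add.comp (Primrec.const 2) hlen
  have hl3 : Primrec (fun x : (ℕ × List (ℕ × Bool)) × ℕ => 3 + 3 * x.1.2.length) :=
    Primrec.nat_add.comp (Primrec.const 3) hlen
  have hn : Primrec (fun x : (ℕ × List (ℕ × Bool)) × ℕ => nx (2 + 3 * x.1.2.length) x.2) :=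
    p_nx.comp (Primrec.pair hl2 Primrec.snd)
  have hw : Primrec (fun x : (ℕ × List (ℕ × Bool)) × ℕ => cL (wk x.1.1 x.1.2 x.2)) :=
    p_cL.comp p_wk
  have hw' : Primrec (fun x : (ℕ × List (ℕ × Bool)) × ℕ =>
      cL (wk x.1.1 x.1.2 (nx (2 + 3 * x.1.2.length) x.2))) :=
    p_cL.comp (p_wk.comp (Primrec.pair Primrec.fst hn))
  have hy : Primrec (fun x : (ℕ × List (ℕ × Bool)) × ℕ => cR (x.1.1, x.2)) :=
    p_cR.comp (Primrec.pair hj Primrec.snd)
  have hy' : Primrec (fun x : (ℕ × List (ℕ × Bool)) × ℕ =>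
      cR (x.1.1, nx (2 + 3 * x.1.2.length) x.2)) :=
    p_cR.comp (Primrec.pair hj hn)
  have hz : Primrec (fun x : (ℕ × List (ℕ × Bool)) × ℕ => cR (x.1.1, 3 + 3 * x.1.2.length)) :=
    p_cR.comp (Primrec.pair hj hl3)
  exact p_l3 (p_l3 hw hw' hy) (p_l3 hw' hy hy') (p_l3 hy hy' hz)

theorem p_fB : Primrec (fun x : ℕ × List (ℕ × Bool) => fB x.1 x.2) := by
  unfold fB
  refine Primrec.list_flatMap (Primrec.list_range.comp (Primrec.nat_add.comp (Primrec.const 3)
    (Primrec.nat_mul.comp (Primrec.const 3) (Primrec.list_length.comp Primrec.snd)))) ?_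
  exact p_tri

theorem p_step (Q : List (List (ℕ × Bool))) :
    Primrec (fun z : List (List (ℕ × Bool)) × ℕ => fA Q z.2 ++ fB z.2 (z.1.getD z.2 [])) := by
  have h1 : Primrec (fun z : List (List (ℕ × Bool)) × ℕ => fA Q z.2) := (p_fA Q).comp Primrec.snd
  have h2 : Primrec (fun z : List (List (ℕ × Bool)) × ℕ => z.1.getD z.2 []) :=
    (Primrec.list_getD ([] : List (ℕ × Bool))).comp Primrec.fst Primrec.snd
  have h3 : Primrec (fun z : List (List (ℕ × Bool)) × ℕ => (z.2, z.1.getD z.2 [])) :=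
    Primrec.pair Primrec.snd h2
  have h4 : Primrec (fun z : List (List (ℕ × Bool)) × ℕ => fB z.2 (z.1.getD z.2 [])) :=
    p_fB.comp h3
  exact Primrec.list_append.comp h1 h4

theorem p_FF (C0 : List (List ℕ)) (Q : List (List (ℕ × Bool))) : Primrec (FF C0 Q) := by
  have h1 : Primrec (fun rs : List (List (ℕ × Bool)) => (List.range rs.length).flatMap fun j =>
      fA Q j ++ fB j (rs.getD j [])) :=
    Primrec.list_flatMap (Primrec.list_range.comp Primrec.list_length) (p_step Q)
  exact Primrec.list_append.comp (Primrec.const C0) h1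

/-! ### correctness -/

theorem kp_ne (N : ℕ) (g : ℕ → ℕ) {s : Finset ℕ} (hs : s ∈ Kp N g) : s.Nonempty := by
  rcases hs with hs | ⟨h, _, hs⟩
  · exact hs.1
  · exact hs.1

theorem code_inl (x : ℕ × ℕ) : code (Sum.inl x) = cL x := rfl

theorem code_inr (x : ℕ × ℕ) : code (Sum.inr x) = cR x := rfl

/-- product of a face with the base point -/
theorem pr_base {K : Set (Finset ℕ)} (p : ℕ) {s : Finset ℕ} (hs : s ∈ K) (hne : s.Nonempty) :
    s.image (fun v => (v, 0)) ∈ Pr K (Th p) := by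
  refine ⟨?_, ?_, ?_⟩
  · rw [Finset.image_image]
    have : (Prod.fst ∘ fun v : ℕ => (v, 0)) = id := rfl
    rw [this, Finset.image_id]
    exact hs
  · rw [Finset.image_image]
    have h2 : s.image (Prod.snd ∘ fun v : ℕ => (v, 0)) = {0} := by
      have : (Prod.snd ∘ fun v : ℕ => (v, 0)) = fun _ => 0 := rfl
      rw [this]
      exact Finset.image_const hne 0
    rw [h2]
    exact ⟨Finset.singleton_nonempty 0, Or.inl rfl⟩
  · intro x hx y hy
    obtain ⟨v, _, rfl⟩ := Finset.mem_image.1 hx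
    obtain ⟨w, _, rfl⟩ := Finset.mem_image.1 hy
    rcases le_total v w with h | h
    · exact Or.inl ⟨h, le_rfl⟩
    · exact Or.inr ⟨h, le_rfl⟩

theorem toFinset_map {α : Type} [DecidableEq α] (s : Finset α) (f : α → ℕ) :
    (s.toList.map f).toFinset = s.image f := by
  ext x
  simp

theorem mem_lvl {Q : List (List (ℕ × Bool))} {a b : ℕ} {s : List ℕ} :
    s ∈ lvl Q a b ↔ ∃ q ∈ Q, q.map (fun x => cL (lev a b x)) = s := by
  unfold lvl
  exact List.mem_map

theorem lvl_sound {K : Set (Finset ℕ)} (hK : K.Finite) (hK3 : ∀ s ∈ K, s.card ≤ 3)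
    (hKne : ∀ s ∈ K, s.Nonempty) (rs : List (List (ℕ × Bool))) {a b : ℕ} (hab : a < b)
    (hT : ({a, b} : Finset ℕ) ∈ Th rs.length) {s : List ℕ}
    (hs : s ∈ lvl ((p2_finite hK).toFinset.toList.map Finset.toList) a b) :
    s.toFinset.card ≤ 4 ∧ ∃ S ∈ Lc K rs, s.toFinset = S.image code := by
  obtain ⟨q, hq, rfl⟩ := mem_lvl.1 hs
  obtain ⟨q', hq', rfl⟩ := List.mem_map.1 hq
  have hq2 : q' ∈ P2 K := by
    have := Finset.mem_toList.1 hq'
    exact (Set.Finite.mem_toFinset _).1 this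
  have hne : q'.Nonempty := Finset.image_nonempty.1 (hKne _ hq2.1)
  rw [toFinset_map]
  refine ⟨Finset.card_image_le.trans (p2_card hK3 hq2), ?_⟩
  refine ⟨(q'.image (lev a b)).image Sum.inl, Or.inl ⟨_, lev_mem hab hT hq2 hne, rfl⟩, ?_⟩
  rw [Finset.image_image, Finset.image_image]
  rfl

theorem tri_sound (K : Set (Finset ℕ)) (rs : List (List (ℕ × Bool))) {j : ℕ}
    (hj : j < rs.length) {i : ℕ} (hi : i < 3 + 3 * (rs.getD j []).length) {s : List ℕ}
    (hs : s ∈ tri j (rs.getD j []) i) :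
    s.toFinset.card ≤ 4 ∧ ∃ S ∈ Lc K rs, s.toFinset = S.image code := by
  have hi' : i ≤ 2 + 3 * (rs.getD j []).length := by omega
  unfold tri at hs
  simp only [List.mem_cons, List.not_mem_nil, or_false] at hs
  have hc : s.length = 3 := by
    rcases hs with rfl | rfl | rfl <;> rfl
  refine ⟨(List.toFinset_card_le s).trans (by omega), ?_⟩
  rcases hs with rfl | rfl | rfl
  · refine ⟨{Sum.inl (wk j (rs.getD j []) i),
      Sum.inl (wk j (rs.getD j []) (nx (2 + 3 * (rs.getD j []).length) i)), Sum.inr (j, i)},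
      Or.inr ⟨j, hj, ⟨_, Finset.mem_insert_self _ _⟩, i, hi', Or.inl (Finset.Subset.refl _)⟩, ?_⟩
    simp only [Finset.image_insert, Finset.image_singleton, code_inl, code_inr,
      List.toFinset_cons, List.toFinset_nil, insert_empty_eq]
  · refine ⟨{Sum.inl (wk j (rs.getD j []) (nx (2 + 3 * (rs.getD j []).length) i)),
      Sum.inr (j, i), Sum.inr (j, nx (2 + 3 * (rs.getD j []).length) i)},
      Or.inr ⟨j, hj, ⟨_, Finset.mem_insert_self _ _⟩, i, hi',
        Or.inr (Or.inl (Finset.Subset.refl _))⟩, ?_⟩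
    simp only [Finset.image_insert, Finset.image_singleton, code_inl, code_inr,
      List.toFinset_cons, List.toFinset_nil, insert_empty_eq]
  · refine ⟨{Sum.inr (j, i), Sum.inr (j, nx (2 + 3 * (rs.getD j []).length) i),
      Sum.inr (j, 3 + 3 * (rs.getD j []).length)},
      Or.inr ⟨j, hj, ⟨_, Finset.mem_insert_self _ _⟩, i, hi',
        Or.inr (Or.inr (Finset.Subset.refl _))⟩, ?_⟩
    simp only [Finset.image_insert, Finset.image_singleton, code_inr,
      List.toFinset_cons, List.toFinset_nil, insert_empty_eq]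

theorem mem_FF {C0 : List (List ℕ)} {Q : List (List (ℕ × Bool))} {rs : List (List (ℕ × Bool))}
    {s : List ℕ} : s ∈ FF C0 Q rs ↔ s ∈ C0 ∨ ∃ j < rs.length,
      (s ∈ lvl Q 0 (2 * j + 1) ∨ s ∈ lvl Q (2 * j + 1) (2 * j + 2) ∨ s ∈ lvl Q 0 (2 * j + 2)) ∨
      ∃ i < 3 + 3 * (rs.getD j []).length, s ∈ tri j (rs.getD j []) i := by
  unfold FF fA fB
  rw [List.mem_append, List.mem_flatMap]
  simp only [List.mem_append, List.mem_flatMap, List.mem_range]

theorem sound (N : ℕ) (g : ℕ → ℕ) (rs : List (List (ℕ × Bool))) {s : List ℕ}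
    (hs : s ∈ FF ((kp_finite N g).toFinset.toList.map (fun s => s.toList.map fun v => cL (v, 0)))
      ((p2_finite (kp_finite N g)).toFinset.toList.map Finset.toList) rs) :
    s.toFinset.card ≤ 4 ∧ ∃ S ∈ Lc (Kp N g) rs, s.toFinset = S.image code := by
  rw [mem_FF] at hs
  rcases hs with hs | ⟨j, hj, hs | ⟨i, hi, hs⟩⟩
  · obtain ⟨t, ht, rfl⟩ := List.mem_map.1 hs
    have ht2 : t ∈ Kp N g := by
      have := Finset.mem_toList.1 ht
      exact (Set.Finite.mem_toFinset _).1 this
    rw [toFinset_map]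
    refine ⟨Finset.card_image_le.trans ((kp_card N g ht2).trans (by norm_num)), ?_⟩
    refine ⟨(t.image (fun v => (v, 0))).image Sum.inl,
      Or.inl ⟨_, pr_base _ ht2 (kp_ne N g ht2), rfl⟩, ?_⟩
    rw [Finset.image_image, Finset.image_image]
    rfl
  · have h3 : ∀ s ∈ Kp N g, s.card ≤ 3 := fun s hs => kp_card N g hs
    have hne : ∀ s ∈ Kp N g, s.Nonempty := fun s hs => kp_ne N g hs
    rcases hs with hs | hs | hs
    · refine lvl_sound (kp_finite N g) h3 hne rs (by omega) ?_ hs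
      exact ⟨⟨0, Finset.mem_insert_self _ _⟩, Or.inr ⟨j, hj, Or.inl (Finset.Subset.refl _)⟩⟩
    · refine lvl_sound (kp_finite N g) h3 hne rs (by omega) ?_ hs
      exact ⟨⟨_, Finset.mem_insert_self _ _⟩,
        Or.inr ⟨j, hj, Or.inr (Or.inl (Finset.Subset.refl _))⟩⟩
    · refine lvl_sound (kp_finite N g) h3 hne rs (by omega) ?_ hs
      exact ⟨⟨0, Finset.mem_insert_self _ _⟩,
        Or.inr ⟨j, hj, Or.inr (Or.inr (Finset.Subset.refl _))⟩⟩
  · exact tri_sound _ rs hj hi hs

theorem lvl_complete {K : Set (Finset ℕ)} (hK : K.Finite) {T : Set (Finset ℕ)} {a b : ℕ}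
    (hab : a < b) {u : Finset (ℕ × ℕ)} (hu : u ∈ Pr K T) (hl : u.image Prod.snd ⊆ {a, b}) :
    ∃ s ∈ lvl ((p2_finite hK).toFinset.toList.map Finset.toList) a b,
      (u.image Sum.inl).image code ⊆ s.toFinset := by
  obtain ⟨q, hq, rfl⟩ := lev_surj hab hu hl
  refine ⟨q.toList.map (fun x => cL (lev a b x)), mem_lvl.2 ⟨q.toList, ?_, rfl⟩, ?_⟩
  · refine List.mem_map.2 ⟨q, ?_, rfl⟩
    exact Finset.mem_toList.2 ((Set.Finite.mem_toFinset _).2 hq)
  · rw [toFinset_map, Finset.image_image, Finset.image_image]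
    exact Finset.Subset.refl _

theorem complete (N : ℕ) (g : ℕ → ℕ) (rs : List (List (ℕ × Bool)))
    {S : Finset ((ℕ × ℕ) ⊕ (ℕ × ℕ))} (hS : S ∈ Lc (Kp N g) rs) :
    (S.image code).Nonempty ∧ ∃ s ∈ FF ((kp_finite N g).toFinset.toList.map
      (fun s => s.toList.map fun v => cL (v, 0)))
      ((p2_finite (kp_finite N g)).toFinset.toList.map Finset.toList) rs,
      S.image code ⊆ s.toFinset := by
  rcases hS with ⟨u, hu, rfl⟩ | ⟨j, hj, hS⟩
  · have hune : u.Nonempty := Finset.image_nonempty.1 (kp_ne N g hu.1)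
    refine ⟨(hune.image _).image _, ?_⟩
    rcases hu.2.1 with ⟨_, h0 | ⟨j, hj, h | h | h⟩⟩
    · refine ⟨(u.image Prod.fst).toList.map (fun v => cL (v, 0)), mem_FF.2 (Or.inl ?_), ?_⟩
      · refine List.mem_map.2 ⟨u.image Prod.fst, ?_, rfl⟩
        exact Finset.mem_toList.2 ((Set.Finite.mem_toFinset _).2 hu.1)
      · rw [toFinset_map, Finset.image_image, Finset.image_image]
        intro x hx
        obtain ⟨y, hy, rfl⟩ := Finset.mem_image.1 hx
        refine Finset.mem_image.2 ⟨y, hy, ?_⟩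
        have h2 : y.2 = 0 := by
          have := h0 ▸ Finset.mem_image_of_mem Prod.snd hy
          simpa using this
        simp only [Function.comp_apply, code_inl]
        rw [← h2]
    · obtain ⟨s, hs, hsub⟩ := lvl_complete (kp_finite N g) (by omega) hu h
      exact ⟨s, mem_FF.2 (Or.inr ⟨j, hj, Or.inl (Or.inl hs)⟩), hsub⟩
    · obtain ⟨s, hs, hsub⟩ := lvl_complete (kp_finite N g) (by omega) hu h
      exact ⟨s, mem_FF.2 (Or.inr ⟨j, hj, Or.inl (Or.inr (Or.inl hs))⟩), hsub⟩
    · obtain ⟨s, hs, hsub⟩ := lvl_complete (kp_finite N g) (by omega) hu h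
      exact ⟨s, mem_FF.2 (Or.inr ⟨j, hj, Or.inl (Or.inr (Or.inr hs))⟩), hsub⟩
  · obtain ⟨hne, i, hi, h⟩ := hS
    refine ⟨hne.image _, ?_⟩
    have hi' : i < 3 + 3 * (rs.getD j []).length := by omega
    rcases h with h | h | h
    · refine ⟨[cL (wk j (rs.getD j []) i),
        cL (wk j (rs.getD j []) (nx (2 + 3 * (rs.getD j []).length) i)), cR (j, i)],
        mem_FF.2 (Or.inr ⟨j, hj, Or.inr ⟨i, hi', ?_⟩⟩), ?_⟩
      · simp [tri]
      · refine (Finset.image_subset_image h).trans ?_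
        simp only [Finset.image_insert, Finset.image_singleton, code_inl, code_inr,
          List.toFinset_cons, List.toFinset_nil, insert_empty_eq]
        exact Finset.Subset.refl _
    · refine ⟨[cL (wk j (rs.getD j []) (nx (2 + 3 * (rs.getD j []).length) i)), cR (j, i),
        cR (j, nx (2 + 3 * (rs.getD j []).length) i)],
        mem_FF.2 (Or.inr ⟨j, hj, Or.inr ⟨i, hi', ?_⟩⟩), ?_⟩
      · simp [tri]
      · refine (Finset.image_subset_image h).trans ?_
        simp only [Finset.image_insert, Finset.image_singleton, code_inl, code_inr,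
          List.toFinset_cons, List.toFinset_nil, insert_empty_eq]
        exact Finset.Subset.refl _
    · refine ⟨[cR (j, i), cR (j, nx (2 + 3 * (rs.getD j []).length) i),
        cR (j, 3 + 3 * (rs.getD j []).length)],
        mem_FF.2 (Or.inr ⟨j, hj, Or.inr ⟨i, hi', ?_⟩⟩), ?_⟩
      · simp [tri]
      · refine (Finset.image_subset_image h).trans ?_
        simp only [Finset.image_insert, Finset.image_singleton, code_inr,
          List.toFinset_cons, List.toFinset_nil, insert_empty_eq]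
        exact Finset.Subset.refl _

theorem result : S_comp := by
  intro N g _
  refine ⟨FF ((kp_finite N g).toFinset.toList.map (fun s => s.toList.map fun v => cL (v, 0)))
      ((p2_finite (kp_finite N g)).toFinset.toList.map Finset.toList), (p_FF _ _).to_comp, ?_⟩
  intro rs
  refine ⟨fun s hs => (sound N g rs hs).1, fun t => ⟨?_, ?_⟩⟩
  · rintro ⟨hne, s, hs, hts⟩
    obtain ⟨S, hS, hSe⟩ := (sound N g rs hs).2
    rw [hSe] at hts
    obtain ⟨S', hS', rfl⟩ := Finset.subset_image_iff.1 hts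
    refine ⟨S', lc_down N g rs hS ?_ (Finset.image_nonempty.1 hne), rfl⟩
    exact_mod_cast hS'
  · rintro ⟨S, hS, rfl⟩
    exact complete N g rs hS

end Pool.Agent.TH25.J525
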